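import Mathlib

/-!
Exact certificates (sums of nonnegative products that vanish identically) for five factors.
-/

set_option autoImplicit false

namespace Pool.Agent.Lib.MP_fe2d2a_anF5

theorem cw2 (A B C D l e0 e5 ca e4 e1 c1 c2 c3 c4 c5 w3 w4 n2 : ℝ)
    (hA : 0 < A)
    (hB : 0 < B)
    (hC : 0 < C)
    (hD : 0 < D)
    (hl : 0 < l)
    (he0 : 0 < e0)
    (he5 : 0 < e5)
    (hca : 0 ≤ ca)
    (he4 : 0 < e4)
    (he1 : 0 < e1)
    (hc1 : 0 < c1)
    (hc2 : 0 < c2)
    (hc3 : 0 < c3)
    (hc4 : 0 < c4)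
    (hc5 : 0 < c5)
    (hw3 : 0 ≤ w3)
    (hw4 : 0 ≤ w4)
    (hn2 : 0 ≤ n2)
    (de0 : e0 = 1 - A - B)
    (de5 : e5 = 1 - C - D)
    (dca : ca = C - A)
    (de4 : e4 = 1 - 5 * A + 3 * B)
    (de1 : e1 = 1 - 5 * C + 3 * D)
    (dc1 : c1 = C * D - l * A * B)
    (dc2 : c2 = l * (B ^ 2 - 2 * A) - 2 * C + D ^ 2)
    (dc3 : c3 = l * (A + B) - C - D)
    (dc4 : c4 = 1 - 2 * D + 2 * C * D - l * (2 * B - 2 * A * B - 1))
    (dc5 : c5 = 1 + C ^ 2 + D ^ 2 - l * (1 + A ^ 2 + B ^ 2))
    (dw3 : w3 = B - D - 2 * B * C + 2 * A * D)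
    (dw4 : w4 = 1 + 5 * A * C - 3 * B * D)
    (dn2 : n2 = 3 * A + 3 * C - B - D) : False := by
  have key : 79877502632880 * (ca * c1)
      + 62917921203240 * (e5 * c1)
      + 39702032941920 * (A * l * ca)
      + 35998564348320 * (D * e5 * n2)
      + 32817751735800 * (D * D * n2)
      + 32339937647784 * (c2)
      + 32213460558960 * (ca * c5)
      + 32213460558960 * (A * ca * c3)
      + 24165322399200 * (A * l * e0)
      + 21994299155520 * (C * e5 * n2)
      + 20387448985920 * (A * e5 * c3)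
      + 15416124676560 * (D * e0 * e5)
      + 15348442214160 * (D * w4)
      + 14397799557120 * (A * l * w3)
      + 13969545191760 * (B * c5)
      + 13610950079880 * (c3 * n2)
      + 13588975085040 * (C * c4)
      + 11372043263280 * (ca * w3)
      + 11202703828320 * (e5 * e5 * n2)
      + 10488568204560 * (A * l * w4)
      + 9326602486800 * (A * ca * ca)
      + 9120422187840 * (A * e0 * n2)
      + 8235550446120 * (e0 * e5 * ca)
      + 8095850893640 * (e0 * c3)
      + 7664046996240 * (B * ca * ca)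
      + 7055577067560 * (C * D * n2)
      + 6218398095210 * (e4 * c2)
      + 6159074733840 * (c1 * n2)
      + 5454197686150 * (e0 * e1 * c3)
      + 5329191953160 * (ca * c4)
      + 5080087309560 * (D * e4 * c3)
      + 4685649093870 * (e0 * c2)
      + 4558888774320 * (B * ca * c3)
      + 4526698074720 * (C * e0 * e1)
      + 4431764506920 * (l * e4 * n2)
      + 4218733073280 * (D * D * e5)
      + 3748837889160 * (B * n2)
      + 3734914671080 * (C * e0 * c3)
      + 3706097719770 * (e1 * c3 * n2)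
      + 3593429944752 * (D * c2)
      + 3042522868320 * (e0 * e0 * n2)
      + 2882398114776 * (e1 * c2)
      + 2743641362880 * (B * ca * n2)
      + 2719298466960 * (D * l * e0)
      + 1853048859885 * (e5 * e1 * c3)
      + 1853048859885 * (e1 * e1 * c3)
      + 1712466039960 * (D * c4)
      + 1622746409520 * (A * B * e0)
      + 1427309617920 * (B * B * ca)
      + 1014174289440 * (e0 * e4 * n2)
      + 981996525720 * (B * c4)
      + 714098699880 * (A * e5 * n2)
      + 700613207760 * (ca * n2 * n2)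
      + 509540496960 * (D * e0 * e1)
      + 409612896480 * (ca * e1 * n2)
      + 307859268600 * (e0 * w3)
      + 163166873400 * (e1 * c3) = 0 := by
    subst de0 de5 dca de4 de1 dc1 dc2 dc3 dc4 dc5 dw3 dw4 dn2
    ring
  have pos : 0 < 79877502632880 * (ca * c1)
      + 62917921203240 * (e5 * c1)
      + 39702032941920 * (A * l * ca)
      + 35998564348320 * (D * e5 * n2)
      + 32817751735800 * (D * D * n2)
      + 32339937647784 * (c2)
      + 32213460558960 * (ca * c5)
      + 32213460558960 * (A * ca * c3)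
      + 24165322399200 * (A * l * e0)
      + 21994299155520 * (C * e5 * n2)
      + 20387448985920 * (A * e5 * c3)
      + 15416124676560 * (D * e0 * e5)
      + 15348442214160 * (D * w4)
      + 14397799557120 * (A * l * w3)
      + 13969545191760 * (B * c5)
      + 13610950079880 * (c3 * n2)
      + 13588975085040 * (C * c4)
      + 11372043263280 * (ca * w3)
      + 11202703828320 * (e5 * e5 * n2)
      + 10488568204560 * (A * l * w4)
      + 9326602486800 * (A * ca * ca)
      + 9120422187840 * (A * e0 * n2)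
      + 8235550446120 * (e0 * e5 * ca)
      + 8095850893640 * (e0 * c3)
      + 7664046996240 * (B * ca * ca)
      + 7055577067560 * (C * D * n2)
      + 6218398095210 * (e4 * c2)
      + 6159074733840 * (c1 * n2)
      + 5454197686150 * (e0 * e1 * c3)
      + 5329191953160 * (ca * c4)
      + 5080087309560 * (D * e4 * c3)
      + 4685649093870 * (e0 * c2)
      + 4558888774320 * (B * ca * c3)
      + 4526698074720 * (C * e0 * e1)
      + 4431764506920 * (l * e4 * n2)
      + 4218733073280 * (D * D * e5)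
      + 3748837889160 * (B * n2)
      + 3734914671080 * (C * e0 * c3)
      + 3706097719770 * (e1 * c3 * n2)
      + 3593429944752 * (D * c2)
      + 3042522868320 * (e0 * e0 * n2)
      + 2882398114776 * (e1 * c2)
      + 2743641362880 * (B * ca * n2)
      + 2719298466960 * (D * l * e0)
      + 1853048859885 * (e5 * e1 * c3)
      + 1853048859885 * (e1 * e1 * c3)
      + 1712466039960 * (D * c4)
      + 1622746409520 * (A * B * e0)
      + 1427309617920 * (B * B * ca)
      + 1014174289440 * (e0 * e4 * n2)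
      + 981996525720 * (B * c4)
      + 714098699880 * (A * e5 * n2)
      + 700613207760 * (ca * n2 * n2)
      + 509540496960 * (D * e0 * e1)
      + 409612896480 * (ca * e1 * n2)
      + 307859268600 * (e0 * w3)
      + 163166873400 * (e1 * c3) := by positivity
  exact absurd key pos.ne'

theorem cw2_p (A B C D l : ℝ)
    (hA : 0 < A)
    (hB : 0 < B)
    (hC : 0 < C)
    (hD : 0 < D)
    (hl : 0 < l)
    (he0 : 0 < 1 - A - B)
    (he5 : 0 < 1 - C - D)
    (hca : 0 ≤ C - A)
    (he4 : 0 < 1 - 5 * A + 3 * B)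
    (he1 : 0 < 1 - 5 * C + 3 * D)
    (hc1 : 0 < C * D - l * A * B)
    (hc2 : 0 < l * (B ^ 2 - 2 * A) - 2 * C + D ^ 2)
    (hc3 : 0 < l * (A + B) - C - D)
    (hc4 : 0 < 1 - 2 * D + 2 * C * D - l * (2 * B - 2 * A * B - 1))
    (hc5 : 0 < 1 + C ^ 2 + D ^ 2 - l * (1 + A ^ 2 + B ^ 2))
    (hw3 : 0 ≤ B - D - 2 * B * C + 2 * A * D)
    (hw4 : 0 ≤ 1 + 5 * A * C - 3 * B * D)
    (hn2 : 0 ≤ 3 * A + 3 * C - B - D) : False :=
  cw2 A B C D l _ _ _ _ _ _ _ _ _ _ _ _ _
    hA hB hC hD hl he0 he5 hca he4 he1 hc1 hc2 hc3 hc4 hc5 hw3 hw4 hn2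
    rfl rfl rfl rfl rfl rfl rfl rfl rfl rfl rfl rfl rfl

theorem cw4 (A B C D l e0 e5 ca e4 e1 c1 c2 c3 c4 c5 w2 w3 n4 : ℝ)
    (hA : 0 < A)
    (hB : 0 < B)
    (hC : 0 < C)
    (hD : 0 < D)
    (hl : 0 < l)
    (he0 : 0 < e0)
    (he5 : 0 < e5)
    (hca : 0 ≤ ca)
    (he4 : 0 < e4)
    (he1 : 0 < e1)
    (hc1 : 0 < c1)
    (hc2 : 0 < c2)
    (hc3 : 0 < c3)
    (hc4 : 0 < c4)
    (hc5 : 0 < c5)
    (hw2 : 0 ≤ w2)
    (hw3 : 0 ≤ w3)
    (hn4 : 0 ≤ n4)
    (de0 : e0 = 1 - A - B)
    (de5 : e5 = 1 - C - D)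
    (dca : ca = C - A)
    (de4 : e4 = 1 - 5 * A + 3 * B)
    (de1 : e1 = 1 - 5 * C + 3 * D)
    (dc1 : c1 = C * D - l * A * B)
    (dc2 : c2 = l * (B ^ 2 - 2 * A) - 2 * C + D ^ 2)
    (dc3 : c3 = l * (A + B) - C - D)
    (dc4 : c4 = 1 - 2 * D + 2 * C * D - l * (2 * B - 2 * A * B - 1))
    (dc5 : c5 = 1 + C ^ 2 + D ^ 2 - l * (1 + A ^ 2 + B ^ 2))
    (dw2 : w2 = B + D - 3 * A - 3 * C)
    (dw3 : w3 = B - D - 2 * B * C + 2 * A * D)
    (dn4 : n4 = 3 * B * D - 1 - 5 * A * C) : False := by
  have key : 145132695000 * (A * e5 * n4)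
      + 118631900400 * (A * e5 * c1)
      + 98937493200 * (A * ca * c1)
      + 97311645600 * (A * C * c2)
      + 80876544840 * (ca * c3)
      + 71601925200 * (B * ca * c1)
      + 70599861400 * (e5 * ca * n4)
      + 52304261200 * (A * C * c4)
      + 49777982800 * (w3 * c3)
      + 36064811200 * (A * n4)
      + 35800962600 * (w3 * c1)
      + 32006970900 * (e0 * n4)
      + 31386916290 * (A * e5 * c4)
      + 28961415600 * (A * A * c1)
      + 27509270910 * (C * e0 * c4)
      + 27242949300 * (e5 * w2 * n4)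
      + 26431879196 * (c4)
      + 25709720400 * (B * C * c1)
      + 24138666600 * (e0 * n4 * l)
      + 21617047600 * (A * n4 * c3)
      + 20458822800 * (C * C * c3)
      + 20096328000 * (A * C * n4)
      + 16125922800 * (e0 * ca * ca)
      + 16021434000 * (A * ca * c4)
      + 15478907800 * (n4 * c2)
      + 13109607200 * (n4 * c3)
      + 12866298300 * (e0 * n4 * c3)
      + 12854860200 * (ca * c2)
      + 12687589200 * (e0 * w2 * c1)
      + 12625366650 * (e0 * w3 * l)
      + 12279519850 * (D * e0 * c3)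
      + 11848494528 * (D * c4)
      + 10922098200 * (C * C * e0)
      + 10248817800 * (e0 * e5 * c1)
      + 10248817800 * (e0 * e0 * c1)
      + 9648416700 * (e0 * e0 * c5)
      + 9648416700 * (e0 * e0 * c2)
      + 9648416700 * (A * e0 * c5)
      + 9207209700 * (e0 * e5 * c2)
      + 9207209700 * (D * e0 * c5)
      + 8970627120 * (D * ca * c3)
      + 8750749300 * (n4 * c5)
      + 8391778200 * (A * D * e0)
      + 8053277700 * (e0 * w2 * l)
      + 8053037850 * (A * e0 * e0)
      + 7944373200 * (B * D * n4)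
      + 7778905050 * (B * e5 * c4)
      + 7121565750 * (B * e0 * c4)
      + 5796258000 * (D * e0 * e5)
      + 5692745175 * (e0 * e5 * e1)
      + 5311480200 * (D * w2 * c3)
      + 5311480200 * (D * e5 * c3)
      + 4774906500 * (e0 * ca * c3)
      + 4682956200 * (D * e0 * w3)
      + 4607645250 * (e0 * ca * l)
      + 4578605600 * (C * e1 * n4)
      + 4383806050 * (B * e0 * c3)
      + 4177748900 * (e0 * w2 * c3)
      + 4091764560 * (ca * e1 * c3)
      + 4079181600 * (A * A * c3)
      + 4031480700 * (A * e0 * w2)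
      + 4021557150 * (e0 * e0 * ca)
      + 3708318600 * (A * e4 * n4)
      + 3708318600 * (ca * e4 * n4)
      + 3101997930 * (w2 * c4)
      + 3013292200 * (e5 * e5 * n4)
      + 2155943400 * (e0 * ca * c2)
      + 2135745300 * (A * e4 * c3)
      + 2002679250 * (ca * e4 * c4)
      + 1867217625 * (e0 * e0 * e1)
      + 1720375800 * (B * e5 * c3)
      + 1669968300 * (e0 * e1 * w3)
      + 1625847600 * (A * ca * c2)
      + 1563454920 * (w3 * c4)
      + 1541683650 * (D * e0 * e0)
      + 1526298900 * (e4 * n4 * l)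
      + 1433709225 * (e0 * e5 * w2)
      + 1290391050 * (e0 * e1 * w2)
      + 1272450400 * (A * w3 * c3)
      + 1175211050 * (e4 * w3 * c3)
      + 130753704 * (e1 * c4) = 0 := by
    subst de0 de5 dca de4 de1 dc1 dc2 dc3 dc4 dc5 dw2 dw3 dn4
    ring
  have pos : 0 < 145132695000 * (A * e5 * n4)
      + 118631900400 * (A * e5 * c1)
      + 98937493200 * (A * ca * c1)
      + 97311645600 * (A * C * c2)
      + 80876544840 * (ca * c3)
      + 71601925200 * (B * ca * c1)
      + 70599861400 * (e5 * ca * n4)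
      + 52304261200 * (A * C * c4)
      + 49777982800 * (w3 * c3)
      + 36064811200 * (A * n4)
      + 35800962600 * (w3 * c1)
      + 32006970900 * (e0 * n4)
      + 31386916290 * (A * e5 * c4)
      + 28961415600 * (A * A * c1)
      + 27509270910 * (C * e0 * c4)
      + 27242949300 * (e5 * w2 * n4)
      + 26431879196 * (c4)
      + 25709720400 * (B * C * c1)
      + 24138666600 * (e0 * n4 * l)
      + 21617047600 * (A * n4 * c3)
      + 20458822800 * (C * C * c3)
      + 20096328000 * (A * C * n4)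
      + 16125922800 * (e0 * ca * ca)
      + 16021434000 * (A * ca * c4)
      + 15478907800 * (n4 * c2)
      + 13109607200 * (n4 * c3)
      + 12866298300 * (e0 * n4 * c3)
      + 12854860200 * (ca * c2)
      + 12687589200 * (e0 * w2 * c1)
      + 12625366650 * (e0 * w3 * l)
      + 12279519850 * (D * e0 * c3)
      + 11848494528 * (D * c4)
      + 10922098200 * (C * C * e0)
      + 10248817800 * (e0 * e5 * c1)
      + 10248817800 * (e0 * e0 * c1)
      + 9648416700 * (e0 * e0 * c5)
      + 9648416700 * (e0 * e0 * c2)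
      + 9648416700 * (A * e0 * c5)
      + 9207209700 * (e0 * e5 * c2)
      + 9207209700 * (D * e0 * c5)
      + 8970627120 * (D * ca * c3)
      + 8750749300 * (n4 * c5)
      + 8391778200 * (A * D * e0)
      + 8053277700 * (e0 * w2 * l)
      + 8053037850 * (A * e0 * e0)
      + 7944373200 * (B * D * n4)
      + 7778905050 * (B * e5 * c4)
      + 7121565750 * (B * e0 * c4)
      + 5796258000 * (D * e0 * e5)
      + 5692745175 * (e0 * e5 * e1)
      + 5311480200 * (D * w2 * c3)
      + 5311480200 * (D * e5 * c3)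
      + 4774906500 * (e0 * ca * c3)
      + 4682956200 * (D * e0 * w3)
      + 4607645250 * (e0 * ca * l)
      + 4578605600 * (C * e1 * n4)
      + 4383806050 * (B * e0 * c3)
      + 4177748900 * (e0 * w2 * c3)
      + 4091764560 * (ca * e1 * c3)
      + 4079181600 * (A * A * c3)
      + 4031480700 * (A * e0 * w2)
      + 4021557150 * (e0 * e0 * ca)
      + 3708318600 * (A * e4 * n4)
      + 3708318600 * (ca * e4 * n4)
      + 3101997930 * (w2 * c4)
      + 3013292200 * (e5 * e5 * n4)
      + 2155943400 * (e0 * ca * c2)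
      + 2135745300 * (A * e4 * c3)
      + 2002679250 * (ca * e4 * c4)
      + 1867217625 * (e0 * e0 * e1)
      + 1720375800 * (B * e5 * c3)
      + 1669968300 * (e0 * e1 * w3)
      + 1625847600 * (A * ca * c2)
      + 1563454920 * (w3 * c4)
      + 1541683650 * (D * e0 * e0)
      + 1526298900 * (e4 * n4 * l)
      + 1433709225 * (e0 * e5 * w2)
      + 1290391050 * (e0 * e1 * w2)
      + 1272450400 * (A * w3 * c3)
      + 1175211050 * (e4 * w3 * c3)
      + 130753704 * (e1 * c4) := by positivity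
  exact absurd key pos.ne'

theorem cw4_p (A B C D l : ℝ)
    (hA : 0 < A)
    (hB : 0 < B)
    (hC : 0 < C)
    (hD : 0 < D)
    (hl : 0 < l)
    (he0 : 0 < 1 - A - B)
    (he5 : 0 < 1 - C - D)
    (hca : 0 ≤ C - A)
    (he4 : 0 < 1 - 5 * A + 3 * B)
    (he1 : 0 < 1 - 5 * C + 3 * D)
    (hc1 : 0 < C * D - l * A * B)
    (hc2 : 0 < l * (B ^ 2 - 2 * A) - 2 * C + D ^ 2)
    (hc3 : 0 < l * (A + B) - C - D)
    (hc4 : 0 < 1 - 2 * D + 2 * C * D - l * (2 * B - 2 * A * B - 1))
    (hc5 : 0 < 1 + C ^ 2 + D ^ 2 - l * (1 + A ^ 2 + B ^ 2))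
    (hw2 : 0 ≤ B + D - 3 * A - 3 * C)
    (hw3 : 0 ≤ B - D - 2 * B * C + 2 * A * D)
    (hn4 : 0 ≤ 3 * B * D - 1 - 5 * A * C) : False :=
  cw4 A B C D l _ _ _ _ _ _ _ _ _ _ _ _ _
    hA hB hC hD hl he0 he5 hca he4 he1 hc1 hc2 hc3 hc4 hc5 hw2 hw3 hn4
    rfl rfl rfl rfl rfl rfl rfl rfl rfl rfl rfl rfl rfl

end Pool.Agent.Lib.MP_fe2d2a_anF5
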