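import Pool.Agent.Lib.MP_fe2d2a_anF5.Cert1
import Pool.Agent.Lib.MP_fe2d2a_anF5.Cert2
import Pool.Agent.Lib.MP_fe2d2a_anF5.Cert3

/-!
The algebra for five factors in the normal form `x2 = y2 = 1`, `l = (x2 / y2) ^ 2`.
-/

set_option autoImplicit false

namespace Pool.Agent.Lib.MP_fe2d2a_anF5

/-- Five factors: all coefficients positive and all `W` nonnegative imply `W2, W3, W4 > 0`. -/
theorem alg5 (a b c d l : ℝ) (hl : 0 < l)
    (E0 : 0 < 1 + a - b) (E1 : 0 < 1 + 5 * c - 3 * d) (E2 : 0 < 1 + b - 5 * a)
    (E3 : 0 < 1 - d - 5 * c) (E4 : 0 < 1 + 5 * a + 3 * b) (E5 : 0 < 1 + c + d)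
    (N1 : 10 * a ≤ 4 * b ^ 2 - 2 * b - 1) (N2 : 10 * c ≤ 4 * d ^ 2 + 2 * d - 1)
    (W0 : b * c < a * d) (W1 : c < a)
    (W2 : 0 ≤ 3 * (a + c) + b - d) (W3 : 0 ≤ 2 * (a * d + b * c) + b + d)
    (W4 : 0 ≤ 1 + 5 * a * c + 3 * b * d)
    (c1 : 0 < l * (a * b) + c * d) (c2 : 0 < l * (2 * a + b ^ 2) + 2 * c + d ^ 2)
    (c3 : 0 < l * (b - a) + c + d)
    (c4 : 0 < l * (1 - 2 * a * b - 2 * b) + 1 + 2 * c * d + 2 * d)
    (c5 : l * (1 + a ^ 2 + b ^ 2) < 1 + c ^ 2 + d ^ 2) :
    0 < 3 * (a + c) + b - d ∧ 0 < 2 * (a * d + b * c) + b + d ∧
      0 < 1 + 5 * a * c + 3 * b * d := by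
  rcases lt_or_ge a 0 with ha | ha
  · have hc : c < 0 := lt_trans W1 ha
    rcases lt_or_ge d 0 with hd | hd
    · rcases lt_or_ge 0 b with hb | hb
      · refine ⟨lt_of_not_ge fun h => ?_, lt_of_not_ge fun h => ?_, lt_of_not_ge fun h => ?_⟩
        · exact cw2_p (-a) b (-c) (-d) l (by linarith) (by linarith) (by linarith) (by linarith) (by linarith) (by linarith) (by linarith) (by linarith) (by linarith) (by linarith) (by linarith) (by linarith) (by linarith) (by linarith) (by linarith) (by linarith) (by linarith) (by linarith)
        · exact cw3_p (-a) b (-c) (-d) l (by linarith) (by linarith) (by linarith) (by linarith) (by linarith) (by linarith) (by linarith) (by linarith) (by linarith) (by linarith) (by linarith) (by linarith) (by linarith) (by linarith) (by linarith) (by linarith) (by linarith) (by linarith)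
        · exact cw4_p (-a) b (-c) (-d) l (by linarith) (by linarith) (by linarith) (by linarith) (by linarith) (by linarith) (by linarith) (by linarith) (by linarith) (by linarith) (by linarith) (by linarith) (by linarith) (by linarith) (by linarith) (by linarith) (by linarith) (by linarith)
      · exact (x2_p (-a) (-b) (-c) (-d) l (by linarith) (by linarith) (by linarith) (by linarith) (by linarith) (by linarith) (by linarith) (by linarith) (by linarith) (by linarith) (by linarith) (by linarith) (by linarith) (by linarith) (by linarith) (by linarith)).elim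
    · rcases lt_or_ge 0 b with hb | hb
      · exfalso
        have h1 : 0 ≤ l * (-a * b) := by
          have : 0 ≤ -a * b := mul_nonneg (by linarith) hb.le
          exact mul_nonneg hl.le this
        have h2 : 0 ≤ -c * d := mul_nonneg (by linarith) hd
        linarith
      · exfalso
        have h1 : 0 ≤ -b * -c := mul_nonneg (by linarith) (by linarith)
        have h2 : 0 ≤ -a * d := mul_nonneg (by linarith) hd
        linarith
  · rcases lt_or_ge c 0 with hc | hc
    · rcases lt_or_ge 0 b with hb | hb
      · rcases lt_or_ge d 0 with hd | hd
        · refine ⟨lt_of_not_ge fun h => ?_, lt_of_not_ge fun h => ?_, lt_of_not_ge fun h => ?_⟩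
          · exact bw2_p a b (-c) (-d) l (by linarith) (by linarith) (by linarith) (by linarith) (by linarith) (by linarith) (by linarith) (by linarith) (by linarith) (by linarith) (by linarith)
          · exact bw3_p a b (-c) (-d) l (by linarith) (by linarith) (by linarith) (by linarith) (by linarith) (by linarith) (by linarith) (by linarith) (by linarith) (by linarith) (by linarith) (by linarith) (by linarith) (by linarith) (by linarith) (by linarith) (by linarith) (by linarith) (by linarith)
          · exact bw4_p a b (-c) (-d) l (by linarith) (by linarith) (by linarith) (by linarith) (by linarith) (by linarith) (by linarith) (by linarith) (by linarith) (by linarith) (by linarith) (by linarith) (by linarith) (by linarith) (by linarith) (by linarith) (by linarith) (by linarith)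
        · refine ⟨lt_of_not_ge fun h => ?_, lt_of_not_ge fun h => ?_, lt_of_not_ge fun h => ?_⟩
          · exact dw2_p a b (-c) d l (by linarith) (by linarith) (by linarith) (by linarith) (by linarith) (by linarith) (by linarith) (by linarith) (by linarith) (by linarith)
          · exact dw3_p a b (-c) d l (by linarith) (by linarith) (by linarith) (by linarith) (by linarith) (by linarith) (by linarith) (by linarith)
          · exact dw4_p a b (-c) d l (by linarith) (by linarith) (by linarith) (by linarith) (by linarith) (by linarith) (by linarith) (by linarith)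
      · exfalso
        rcases lt_or_ge d 0 with hd | hd
        · have h1 : 0 ≤ -b * -c := mul_nonneg (by linarith) (by linarith)
          have h2 : 0 ≤ a * -d := mul_nonneg ha (by linarith)
          linarith
        · have h1 : 0 ≤ l * (a * -b) := by
            have : 0 ≤ a * -b := mul_nonneg ha (by linarith)
            exact mul_nonneg hl.le this
          have h2 : 0 ≤ -c * d := mul_nonneg (by linarith) hd
          linarith
    · rcases lt_or_ge d 0 with hd | hd
      · exfalso
        rcases lt_or_ge 0 b with hb | hb
        · have h1 : 0 ≤ b * c := mul_nonneg hb.le hc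
          have h2 : 0 ≤ a * -d := mul_nonneg ha (by linarith)
          linarith
        · have h1 : 0 ≤ l * (a * -b) := by
            have : 0 ≤ a * -b := mul_nonneg ha (by linarith)
            exact mul_nonneg hl.le this
          have h2 : 0 ≤ c * -d := mul_nonneg hc (by linarith)
          linarith
      · rcases lt_or_ge 0 b with hb | hb
        · have had : 0 ≤ a * d := mul_nonneg ha hd
          have hbc : 0 ≤ b * c := mul_nonneg hb.le hc
          have hac : 0 ≤ a * c := mul_nonneg ha hc
          have hbd : 0 ≤ b * d := mul_nonneg hb.le hd
          refine ⟨lt_of_not_ge fun h => ?_, by linarith, by linarith⟩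
          exact a1w2_p a b c d l (by linarith) (by linarith) (by linarith) (by linarith) (by linarith) (by linarith)
        · exact (x1_p a (-b) c d l (by linarith) (by linarith) (by linarith) (by linarith) (by linarith) (by linarith) (by linarith) (by linarith) (by linarith) (by linarith) (by linarith)).elim

end Pool.Agent.Lib.MP_fe2d2a_anF5
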