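import Mathlib

/-!
Exact certificates (sums of nonnegative products that vanish identically) for five factors.
-/

set_option autoImplicit false

namespace Pool.Agent.Lib.MP_fe2d2a_anF5

theorem a1w2 (A B C D l e1 nn n2 : ℝ)
    (hA : 0 ≤ A)
    (hB : 0 ≤ B)
    (hC : 0 ≤ C)
    (he1 : 0 < e1)
    (hnn : 0 ≤ nn)
    (hn2 : 0 ≤ n2)
    (de1 : e1 = 1 + 5 * C - 3 * D)
    (dnn : nn = 4 * B ^ 2 - 2 * B - 1 - 10 * A)
    (dn2 : n2 = D - 3 * A - 3 * C - B) : False := by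
  have key : 36 * (A * B)
      + 30 * (A)
      + 16 * (B * C)
      + 12 * (B * n2)
      + 4 * (B * e1)
      + 3 * (nn)
      + 3
      + 2 * (B) = 0 := by
    subst de1 dnn dn2
    ring
  have pos : 0 < 36 * (A * B)
      + 30 * (A)
      + 16 * (B * C)
      + 12 * (B * n2)
      + 4 * (B * e1)
      + 3 * (nn)
      + 3
      + 2 * (B) := by positivity
  exact absurd key pos.ne'

theorem a1w2_p (A B C D l : ℝ)
    (hA : 0 ≤ A)
    (hB : 0 ≤ B)
    (hC : 0 ≤ C)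
    (he1 : 0 < 1 + 5 * C - 3 * D)
    (hnn : 0 ≤ 4 * B ^ 2 - 2 * B - 1 - 10 * A)
    (hn2 : 0 ≤ D - 3 * A - 3 * C - B) : False :=
  a1w2 A B C D l _ _ _
    hA hB hC he1 hnn hn2
    rfl rfl rfl

theorem x1 (A B C D l e0 e2 e1 e3 e4 nn mm w2 : ℝ)
    (hA : 0 ≤ A)
    (hB : 0 ≤ B)
    (hD : 0 ≤ D)
    (he0 : 0 < e0)
    (he2 : 0 < e2)
    (he1 : 0 < e1)
    (he3 : 0 < e3)
    (he4 : 0 < e4)
    (hnn : 0 ≤ nn)
    (hmm : 0 ≤ mm)
    (hw2 : 0 ≤ w2)
    (de0 : e0 = 1 + A + B)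
    (de2 : e2 = 1 - B - 5 * A)
    (de1 : e1 = 1 + 5 * C - 3 * D)
    (de3 : e3 = 1 - D - 5 * C)
    (de4 : e4 = 1 + 5 * A - 3 * B)
    (dnn : nn = 4 * B ^ 2 + 2 * B - 1 - 10 * A)
    (dmm : mm = 4 * D ^ 2 + 2 * D - 1 - 10 * C)
    (dw2 : w2 = 3 * A + 3 * C - B - D) : False := by
  have key : 80 * (A)
      + 46 * (e4)
      + 44 * (B * e2)
      + 40 * (nn)
      + 32 * (B * e4)
      + 32 * (B * D)
      + 25 * (e0 * w2)
      + 12 * (B * e3)
      + 8 * (mm)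
      + 8 * (D * e3)
      + 8 * (D * e1)
      + 5 * (e2 * w2)
      + 2 * (e3) = 0 := by
    subst de0 de2 de1 de3 de4 dnn dmm dw2
    ring
  have pos : 0 < 80 * (A)
      + 46 * (e4)
      + 44 * (B * e2)
      + 40 * (nn)
      + 32 * (B * e4)
      + 32 * (B * D)
      + 25 * (e0 * w2)
      + 12 * (B * e3)
      + 8 * (mm)
      + 8 * (D * e3)
      + 8 * (D * e1)
      + 5 * (e2 * w2)
      + 2 * (e3) := by positivity
  exact absurd key pos.ne'

theorem x1_p (A B C D l : ℝ)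
    (hA : 0 ≤ A)
    (hB : 0 ≤ B)
    (hD : 0 ≤ D)
    (he0 : 0 < 1 + A + B)
    (he2 : 0 < 1 - B - 5 * A)
    (he1 : 0 < 1 + 5 * C - 3 * D)
    (he3 : 0 < 1 - D - 5 * C)
    (he4 : 0 < 1 + 5 * A - 3 * B)
    (hnn : 0 ≤ 4 * B ^ 2 + 2 * B - 1 - 10 * A)
    (hmm : 0 ≤ 4 * D ^ 2 + 2 * D - 1 - 10 * C)
    (hw2 : 0 ≤ 3 * A + 3 * C - B - D) : False :=
  x1 A B C D l _ _ _ _ _ _ _ _
    hA hB hD he0 he2 he1 he3 he4 hnn hmm hw2
    rfl rfl rfl rfl rfl rfl rfl rfl

theorem x2 (A B C D l e5 e2 e1 e4 w1 nn mm c1 c2 c3 c5 w2 : ℝ)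
    (hB : 0 ≤ B)
    (hC : 0 < C)
    (hD : 0 < D)
    (hl : 0 < l)
    (he5 : 0 < e5)
    (he2 : 0 < e2)
    (he1 : 0 < e1)
    (he4 : 0 < e4)
    (hw1 : 0 < w1)
    (hnn : 0 ≤ nn)
    (hmm : 0 ≤ mm)
    (hc1 : 0 < c1)
    (hc2 : 0 < c2)
    (hc3 : 0 < c3)
    (hc5 : 0 < c5)
    (hw2 : 0 ≤ w2)
    (de5 : e5 = 1 - C - D)
    (de2 : e2 = 1 - B + 5 * A)
    (de1 : e1 = 1 - 5 * C + 3 * D)
    (de4 : e4 = 1 - 5 * A - 3 * B)
    (dw1 : w1 = C - A)
    (dnn : nn = 4 * B ^ 2 + 2 * B - 1 + 10 * A)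
    (dmm : mm = 4 * D ^ 2 - 2 * D - 1 + 10 * C)
    (dc1 : c1 = l * A * B + C * D)
    (dc2 : c2 = l * (B ^ 2 - 2 * A) - 2 * C + D ^ 2)
    (dc3 : c3 = l * (A - B) - C - D)
    (dc5 : c5 = 1 + C ^ 2 + D ^ 2 - l * (1 + A ^ 2 + B ^ 2))
    (dw2 : w2 = D - B - 3 * A - 3 * C) : False := by
  have key : 590 * (D * e5)
      + 560 * (B * l)
      + 540 * (C * D)
      + 500 * (c3)
      + 216 * (e4)
      + 200 * (l * w1)
      + 194 * (B)
      + 161 * (B * e2)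
      + 161 * (B * e4)
      + 161 * (nn)
      + 160 * (w2)
      + 115 * (mm)
      + 80 * (c2)
      + 50 * (l * e5)
      + 50 * (c5)
      + 50 * (l * w2)
      + 40 * (B * c3)
      + 20 * (c1)
      + 10 * (e5 * e4)
      + 10 * (e2 * c3)
      + 10 * (C * e1) = 0 := by
    subst de5 de2 de1 de4 dw1 dnn dmm dc1 dc2 dc3 dc5 dw2
    ring
  have pos : 0 < 590 * (D * e5)
      + 560 * (B * l)
      + 540 * (C * D)
      + 500 * (c3)
      + 216 * (e4)
      + 200 * (l * w1)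
      + 194 * (B)
      + 161 * (B * e2)
      + 161 * (B * e4)
      + 161 * (nn)
      + 160 * (w2)
      + 115 * (mm)
      + 80 * (c2)
      + 50 * (l * e5)
      + 50 * (c5)
      + 50 * (l * w2)
      + 40 * (B * c3)
      + 20 * (c1)
      + 10 * (e5 * e4)
      + 10 * (e2 * c3)
      + 10 * (C * e1) := by positivity
  exact absurd key pos.ne'

theorem x2_p (A B C D l : ℝ)
    (hB : 0 ≤ B)
    (hC : 0 < C)
    (hD : 0 < D)
    (hl : 0 < l)
    (he5 : 0 < 1 - C - D)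
    (he2 : 0 < 1 - B + 5 * A)
    (he1 : 0 < 1 - 5 * C + 3 * D)
    (he4 : 0 < 1 - 5 * A - 3 * B)
    (hw1 : 0 < C - A)
    (hnn : 0 ≤ 4 * B ^ 2 + 2 * B - 1 + 10 * A)
    (hmm : 0 ≤ 4 * D ^ 2 - 2 * D - 1 + 10 * C)
    (hc1 : 0 < l * A * B + C * D)
    (hc2 : 0 < l * (B ^ 2 - 2 * A) - 2 * C + D ^ 2)
    (hc3 : 0 < l * (A - B) - C - D)
    (hc5 : 0 < 1 + C ^ 2 + D ^ 2 - l * (1 + A ^ 2 + B ^ 2))
    (hw2 : 0 ≤ D - B - 3 * A - 3 * C) : False :=
  x2 A B C D l _ _ _ _ _ _ _ _ _ _ _ _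
    hB hC hD hl he5 he2 he1 he4 hw1 hnn hmm hc1 hc2 hc3 hc5 hw2
    rfl rfl rfl rfl rfl rfl rfl rfl rfl rfl rfl rfl

theorem dw2 (A B C D l e0 e5 e1 e3 nn n2 : ℝ)
    (hA : 0 ≤ A)
    (hB : 0 ≤ B)
    (hC : 0 < C)
    (hD : 0 ≤ D)
    (he0 : 0 < e0)
    (he5 : 0 < e5)
    (he1 : 0 < e1)
    (he3 : 0 < e3)
    (hnn : 0 ≤ nn)
    (hn2 : 0 ≤ n2)
    (de0 : e0 = 1 + A - B)
    (de5 : e5 = 1 - C + D)
    (de1 : e1 = 1 - 5 * C - 3 * D)
    (de3 : e3 = 1 - D + 5 * C)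
    (dnn : nn = 4 * B ^ 2 - 2 * B - 1 - 10 * A)
    (dn2 : n2 = 3 * C - 3 * A - B + D) : False := by
  have key : 288 * (A)
      + 60 * (C * D)
      + 60 * (B * e0)
      + 36 * (D * D)
      + 30 * (n2)
      + 20 * (nn)
      + 20 * (B * n2)
      + 16 * (B * D)
      + 15 * (e5 * e1)
      + 12 * (D)
      + 12 * (B * e1)
      + 3 * (e1 * e3)
      + 2 * (e0) = 0 := by
    subst de0 de5 de1 de3 dnn dn2
    ring
  have pos : 0 < 288 * (A)
      + 60 * (C * D)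
      + 60 * (B * e0)
      + 36 * (D * D)
      + 30 * (n2)
      + 20 * (nn)
      + 20 * (B * n2)
      + 16 * (B * D)
      + 15 * (e5 * e1)
      + 12 * (D)
      + 12 * (B * e1)
      + 3 * (e1 * e3)
      + 2 * (e0) := by positivity
  exact absurd key pos.ne'

theorem dw2_p (A B C D l : ℝ)
    (hA : 0 ≤ A)
    (hB : 0 ≤ B)
    (hC : 0 < C)
    (hD : 0 ≤ D)
    (he0 : 0 < 1 + A - B)
    (he5 : 0 < 1 - C + D)
    (he1 : 0 < 1 - 5 * C - 3 * D)
    (he3 : 0 < 1 - D + 5 * C)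
    (hnn : 0 ≤ 4 * B ^ 2 - 2 * B - 1 - 10 * A)
    (hn2 : 0 ≤ 3 * C - 3 * A - B + D) : False :=
  dw2 A B C D l _ _ _ _ _ _
    hA hB hC hD he0 he5 he1 he3 hnn hn2
    rfl rfl rfl rfl rfl rfl

theorem dw3 (A B C D l e0 e2 e1 nn n3 : ℝ)
    (hA : 0 ≤ A)
    (hB : 0 ≤ B)
    (hD : 0 ≤ D)
    (he0 : 0 < e0)
    (he2 : 0 < e2)
    (he1 : 0 < e1)
    (hnn : 0 ≤ nn)
    (hn3 : 0 ≤ n3)
    (de0 : e0 = 1 + A - B)
    (de2 : e2 = 1 + B - 5 * A)
    (de1 : e1 = 1 - 5 * C - 3 * D)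
    (dnn : nn = 4 * B ^ 2 - 2 * B - 1 - 10 * A)
    (dn3 : n3 = 2 * B * C - 2 * A * D - B - D) : False := by
  have key : 10 * (A * D)
      + 9 * (A)
      + 6 * (B * D)
      + 5 * (B * e0)
      + 5 * (n3)
      + 5 * (D)
      + 2 * (B * e1)
      + 1 * (e0)
      + 1 * (B * e2)
      + 1 * (nn) = 0 := by
    subst de0 de2 de1 dnn dn3
    ring
  have pos : 0 < 10 * (A * D)
      + 9 * (A)
      + 6 * (B * D)
      + 5 * (B * e0)
      + 5 * (n3)
      + 5 * (D)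
      + 2 * (B * e1)
      + 1 * (e0)
      + 1 * (B * e2)
      + 1 * (nn) := by positivity
  exact absurd key pos.ne'

theorem dw3_p (A B C D l : ℝ)
    (hA : 0 ≤ A)
    (hB : 0 ≤ B)
    (hD : 0 ≤ D)
    (he0 : 0 < 1 + A - B)
    (he2 : 0 < 1 + B - 5 * A)
    (he1 : 0 < 1 - 5 * C - 3 * D)
    (hnn : 0 ≤ 4 * B ^ 2 - 2 * B - 1 - 10 * A)
    (hn3 : 0 ≤ 2 * B * C - 2 * A * D - B - D) : False :=
  dw3 A B C D l _ _ _ _ _
    hA hB hD he0 he2 he1 hnn hn3
    rfl rfl rfl rfl rfl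

theorem dw4 (A B C D l e0 e2 e1 nn n4 : ℝ)
    (hB : 0 ≤ B)
    (hC : 0 < C)
    (hD : 0 ≤ D)
    (he0 : 0 < e0)
    (he2 : 0 < e2)
    (he1 : 0 < e1)
    (hnn : 0 ≤ nn)
    (hn4 : 0 ≤ n4)
    (de0 : e0 = 1 + A - B)
    (de2 : e2 = 1 + B - 5 * A)
    (de1 : e1 = 1 - 5 * C - 3 * D)
    (dnn : nn = 4 * B ^ 2 - 2 * B - 1 - 10 * A)
    (dn4 : n4 = 5 * A * C - 1 - 3 * B * D) : False := by
  have key : 108 * (B * D)
      + 30 * (n4)
      + 30 * (C * e2)
      + 18 * (D)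
      + 15
      + 10 * (e0)
      + 6 * (e1)
      + 6 * (B * e1)
      + 5 * (B * e0)
      + 1 * (nn)
      + 1 * (B * e2) = 0 := by
    subst de0 de2 de1 dnn dn4
    ring
  have pos : 0 < 108 * (B * D)
      + 30 * (n4)
      + 30 * (C * e2)
      + 18 * (D)
      + 15
      + 10 * (e0)
      + 6 * (e1)
      + 6 * (B * e1)
      + 5 * (B * e0)
      + 1 * (nn)
      + 1 * (B * e2) := by positivity
  exact absurd key pos.ne'

theorem dw4_p (A B C D l : ℝ)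
    (hB : 0 ≤ B)
    (hC : 0 < C)
    (hD : 0 ≤ D)
    (he0 : 0 < 1 + A - B)
    (he2 : 0 < 1 + B - 5 * A)
    (he1 : 0 < 1 - 5 * C - 3 * D)
    (hnn : 0 ≤ 4 * B ^ 2 - 2 * B - 1 - 10 * A)
    (hn4 : 0 ≤ 5 * A * C - 1 - 3 * B * D) : False :=
  dw4 A B C D l _ _ _ _ _
    hB hC hD he0 he2 he1 hnn hn4
    rfl rfl rfl rfl rfl

theorem bw2 (A B C D l e0 e5 e2 e1 nn w3 n2 : ℝ)
    (hA : 0 ≤ A)
    (hB : 0 < B)
    (hC : 0 < C)
    (hD : 0 < D)
    (he0 : 0 < e0)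
    (he5 : 0 < e5)
    (he2 : 0 < e2)
    (he1 : 0 < e1)
    (hnn : 0 ≤ nn)
    (hw3 : 0 ≤ w3)
    (hn2 : 0 ≤ n2)
    (de0 : e0 = 1 + A - B)
    (de5 : e5 = 1 - C - D)
    (de2 : e2 = 1 + B - 5 * A)
    (de1 : e1 = 1 - 5 * C + 3 * D)
    (dnn : nn = 4 * B ^ 2 - 2 * B - 1 - 10 * A)
    (dw3 : w3 = B - D - 2 * B * C - 2 * A * D)
    (dn2 : n2 = 3 * C - 3 * A - B - D) : False := by
  have key : 264 * (A * B)
      + 264 * (A)
      + 85 * (B * n2)
      + 60 * (A * D)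
      + 40 * (w3)
      + 35 * (B * e1)
      + 25 * (n2)
      + 20 * (D * e0)
      + 20 * (nn)
      + 15 * (D * e1)
      + 15 * (C * e1)
      + 15 * (e5 * e1)
      + 5 * (e0 * e0)
      + 1 * (A * e2) = 0 := by
    subst de0 de5 de2 de1 dnn dw3 dn2
    ring
  have pos : 0 < 264 * (A * B)
      + 264 * (A)
      + 85 * (B * n2)
      + 60 * (A * D)
      + 40 * (w3)
      + 35 * (B * e1)
      + 25 * (n2)
      + 20 * (D * e0)
      + 20 * (nn)
      + 15 * (D * e1)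
      + 15 * (C * e1)
      + 15 * (e5 * e1)
      + 5 * (e0 * e0)
      + 1 * (A * e2) := by positivity
  exact absurd key pos.ne'

theorem bw2_p (A B C D l : ℝ)
    (hA : 0 ≤ A)
    (hB : 0 < B)
    (hC : 0 < C)
    (hD : 0 < D)
    (he0 : 0 < 1 + A - B)
    (he5 : 0 < 1 - C - D)
    (he2 : 0 < 1 + B - 5 * A)
    (he1 : 0 < 1 - 5 * C + 3 * D)
    (hnn : 0 ≤ 4 * B ^ 2 - 2 * B - 1 - 10 * A)
    (hw3 : 0 ≤ B - D - 2 * B * C - 2 * A * D)
    (hn2 : 0 ≤ 3 * C - 3 * A - B - D) : False :=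
  bw2 A B C D l _ _ _ _ _ _ _
    hA hB hC hD he0 he5 he2 he1 hnn hw3 hn2
    rfl rfl rfl rfl rfl rfl rfl

theorem bw3 (A B C D l e0 e5 e2 e1 w0 nn mm c2 c3 c4 c5 w2 w4 n3 : ℝ)
    (hA : 0 ≤ A)
    (hB : 0 < B)
    (hC : 0 < C)
    (hD : 0 < D)
    (hl : 0 < l)
    (he0 : 0 < e0)
    (he5 : 0 < e5)
    (he2 : 0 < e2)
    (he1 : 0 < e1)
    (hw0 : 0 < w0)
    (hnn : 0 ≤ nn)
    (hmm : 0 ≤ mm)
    (hc2 : 0 < c2)
    (hc3 : 0 < c3)
    (hc4 : 0 < c4)
    (hc5 : 0 < c5)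
    (hw2 : 0 ≤ w2)
    (hw4 : 0 ≤ w4)
    (hn3 : 0 ≤ n3)
    (de0 : e0 = 1 + A - B)
    (de5 : e5 = 1 - C - D)
    (de2 : e2 = 1 + B - 5 * A)
    (de1 : e1 = 1 - 5 * C + 3 * D)
    (dw0 : w0 = B * C - A * D)
    (dnn : nn = 4 * B ^ 2 - 2 * B - 1 - 10 * A)
    (dmm : mm = 4 * D ^ 2 - 2 * D - 1 + 10 * C)
    (dc2 : c2 = l * (B ^ 2 + 2 * A) - 2 * C + D ^ 2)
    (dc3 : c3 = l * (B - A) - C - D)
    (dc4 : c4 = 1 - 2 * D + 2 * C * D - l * (2 * B + 2 * A * B - 1))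
    (dc5 : c5 = 1 + C ^ 2 + D ^ 2 - l * (1 + A ^ 2 + B ^ 2))
    (dw2 : w2 = 3 * A - 3 * C + B + D)
    (dw4 : w4 = 1 - 5 * A * C - 3 * B * D)
    (dn3 : n3 = D - B + 2 * B * C + 2 * A * D) : False := by
  have key : 1614800763508943800 * (A * A * l)
      + 1227157489678914000 * (A * C * D)
      + 462600487839501290 * (e0 * c3)
      + 453125568582488888 * (B * c3)
      + 396127030129279520 * (n3)
      + 383871984301673200 * (B * c5)
      + 358880237859489600 * (A * C * c3)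
      + 344001463109177800 * (A * D * e0)
      + 283302378028332000 * (C * c3)
      + 237375376448394400 * (A * A * C)
      + 233454044884481200 * (A * l * w0)
      + 210218228167464800 * (C * e0 * e5)
      + 160513597037245200 * (C * e0 * e0)
      + 158654328014107600 * (A * e0)
      + 150783788530737600 * (D * w4)
      + 148444313287826775 * (A * l * e1)
      + 144074185104293808 * (B * B * c3)
      + 138290956318661800 * (A * l * n3)
      + 116623248795377850 * (e0 * c3 * w2)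
      + 107383457856427600 * (B * c2)
      + 97812188006872600 * (D * c3)
      + 84588351304513650 * (e0 * e5 * c3)
      + 75577859831157600 * (C * c5)
      + 72497755907016800 * (e5 * c2)
      + 65018336355049600 * (A * c4)
      + 59872835008394200 * (A * D * e1)
      + 58249028004783200 * (A * e2)
      + 39999376176943000 * (D * c4)
      + 36244575241599682 * (B * e2 * c3)
      + 36091302779177710 * (A * e2 * c3)
      + 33882646498049000 * (e2 * c5)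
      + 33882646498049000 * (l * e0 * e0)
      + 31038415734567600 * (A * e5 * w2)
      + 29063523093279700 * (B * l * nn)
      + 25192619943719200 * (l * nn * w2)
      + 25192619943719200 * (C * C * w2)
      + 24215368091754720 * (B * n3)
      + 20672443412945400 * (A * C * w2)
      + 19989967783354680 * (e2 * n3)
      + 19717239720723725 * (A * l * e5)
      + 14935984701179450 * (e0 * e1 * w2)
      + 14410268305093600 * (C * D * e1)
      + 12289556801039800 * (e0 * mm)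
      + 11921917106590200 * (D * e5 * w2)
      + 11336882935398950 * (e1 * nn)
      + 11092970261978200 * (D * c5)
      + 10478371557665000 * (D * D * e5)
      + 7964478686078800 * (B * l * n3)
      + 7412772311195840 * (nn * c3)
      + 6983756192441150 * (e1 * mm)
      + 3713785971245600 * (D * l * nn)
      + 3272450569169100 * (nn)
      + 355492619828850 * (e2 * e1 * w2)
      + 348493938187800 * (B * B * e1) = 0 := by
    subst de0 de5 de2 de1 dw0 dnn dmm dc2 dc3 dc4 dc5 dw2 dw4 dn3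
    ring
  have pos : 0 < 1614800763508943800 * (A * A * l)
      + 1227157489678914000 * (A * C * D)
      + 462600487839501290 * (e0 * c3)
      + 453125568582488888 * (B * c3)
      + 396127030129279520 * (n3)
      + 383871984301673200 * (B * c5)
      + 358880237859489600 * (A * C * c3)
      + 344001463109177800 * (A * D * e0)
      + 283302378028332000 * (C * c3)
      + 237375376448394400 * (A * A * C)
      + 233454044884481200 * (A * l * w0)
      + 210218228167464800 * (C * e0 * e5)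
      + 160513597037245200 * (C * e0 * e0)
      + 158654328014107600 * (A * e0)
      + 150783788530737600 * (D * w4)
      + 148444313287826775 * (A * l * e1)
      + 144074185104293808 * (B * B * c3)
      + 138290956318661800 * (A * l * n3)
      + 116623248795377850 * (e0 * c3 * w2)
      + 107383457856427600 * (B * c2)
      + 97812188006872600 * (D * c3)
      + 84588351304513650 * (e0 * e5 * c3)
      + 75577859831157600 * (C * c5)
      + 72497755907016800 * (e5 * c2)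
      + 65018336355049600 * (A * c4)
      + 59872835008394200 * (A * D * e1)
      + 58249028004783200 * (A * e2)
      + 39999376176943000 * (D * c4)
      + 36244575241599682 * (B * e2 * c3)
      + 36091302779177710 * (A * e2 * c3)
      + 33882646498049000 * (e2 * c5)
      + 33882646498049000 * (l * e0 * e0)
      + 31038415734567600 * (A * e5 * w2)
      + 29063523093279700 * (B * l * nn)
      + 25192619943719200 * (l * nn * w2)
      + 25192619943719200 * (C * C * w2)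
      + 24215368091754720 * (B * n3)
      + 20672443412945400 * (A * C * w2)
      + 19989967783354680 * (e2 * n3)
      + 19717239720723725 * (A * l * e5)
      + 14935984701179450 * (e0 * e1 * w2)
      + 14410268305093600 * (C * D * e1)
      + 12289556801039800 * (e0 * mm)
      + 11921917106590200 * (D * e5 * w2)
      + 11336882935398950 * (e1 * nn)
      + 11092970261978200 * (D * c5)
      + 10478371557665000 * (D * D * e5)
      + 7964478686078800 * (B * l * n3)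
      + 7412772311195840 * (nn * c3)
      + 6983756192441150 * (e1 * mm)
      + 3713785971245600 * (D * l * nn)
      + 3272450569169100 * (nn)
      + 355492619828850 * (e2 * e1 * w2)
      + 348493938187800 * (B * B * e1) := by positivity
  exact absurd key pos.ne'

theorem bw3_p (A B C D l : ℝ)
    (hA : 0 ≤ A)
    (hB : 0 < B)
    (hC : 0 < C)
    (hD : 0 < D)
    (hl : 0 < l)
    (he0 : 0 < 1 + A - B)
    (he5 : 0 < 1 - C - D)
    (he2 : 0 < 1 + B - 5 * A)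
    (he1 : 0 < 1 - 5 * C + 3 * D)
    (hw0 : 0 < B * C - A * D)
    (hnn : 0 ≤ 4 * B ^ 2 - 2 * B - 1 - 10 * A)
    (hmm : 0 ≤ 4 * D ^ 2 - 2 * D - 1 + 10 * C)
    (hc2 : 0 < l * (B ^ 2 + 2 * A) - 2 * C + D ^ 2)
    (hc3 : 0 < l * (B - A) - C - D)
    (hc4 : 0 < 1 - 2 * D + 2 * C * D - l * (2 * B + 2 * A * B - 1))
    (hc5 : 0 < 1 + C ^ 2 + D ^ 2 - l * (1 + A ^ 2 + B ^ 2))
    (hw2 : 0 ≤ 3 * A - 3 * C + B + D)
    (hw4 : 0 ≤ 1 - 5 * A * C - 3 * B * D)
    (hn3 : 0 ≤ D - B + 2 * B * C + 2 * A * D) : False :=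
  bw3 A B C D l _ _ _ _ _ _ _ _ _ _ _ _ _ _
    hA hB hC hD hl he0 he5 he2 he1 hw0 hnn hmm hc2 hc3 hc4 hc5 hw2 hw4 hn3
    rfl rfl rfl rfl rfl rfl rfl rfl rfl rfl rfl rfl rfl rfl

theorem bw4 (A B C D l e0 e5 e2 e1 w0 nn mm c2 c3 c4 c5 w2 n4 : ℝ)
    (hA : 0 ≤ A)
    (hB : 0 < B)
    (hC : 0 < C)
    (hD : 0 < D)
    (hl : 0 < l)
    (he0 : 0 < e0)
    (he5 : 0 < e5)
    (he2 : 0 < e2)
    (he1 : 0 < e1)
    (hw0 : 0 < w0)
    (hnn : 0 ≤ nn)
    (hmm : 0 ≤ mm)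
    (hc2 : 0 < c2)
    (hc3 : 0 < c3)
    (hc4 : 0 < c4)
    (hc5 : 0 < c5)
    (hw2 : 0 ≤ w2)
    (hn4 : 0 ≤ n4)
    (de0 : e0 = 1 + A - B)
    (de5 : e5 = 1 - C - D)
    (de2 : e2 = 1 + B - 5 * A)
    (de1 : e1 = 1 - 5 * C + 3 * D)
    (dw0 : w0 = B * C - A * D)
    (dnn : nn = 4 * B ^ 2 - 2 * B - 1 - 10 * A)
    (dmm : mm = 4 * D ^ 2 - 2 * D - 1 + 10 * C)
    (dc2 : c2 = l * (B ^ 2 + 2 * A) - 2 * C + D ^ 2)
    (dc3 : c3 = l * (B - A) - C - D)
    (dc4 : c4 = 1 - 2 * D + 2 * C * D - l * (2 * B + 2 * A * B - 1))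
    (dc5 : c5 = 1 + C ^ 2 + D ^ 2 - l * (1 + A ^ 2 + B ^ 2))
    (dw2 : w2 = 3 * A - 3 * C + B + D)
    (dn4 : n4 = 3 * B * D - 1 + 5 * A * C) : False := by
  have key : 5460855180 * (A * C * C)
      + 3643567540 * (A * C * D)
      + 3524439660 * (A * c3)
      + 2959774980 * (A * l * e0)
      + 2249829990 * (B * e0 * c3)
      + 1834380900 * (e5 * n4)
      + 1809842460 * (D * n4)
      + 1785304020 * (B * B * c3)
      + 1684431690 * (e0 * w0)
      + 1369109280 * (A * D * e0)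
      + 1149110265 * (D * e0 * e5)
      + 831975844 * (B * c4)
      + 659969050 * (e0 * c5)
      + 631836480 * (A * A * D)
      + 599191080 * (C * n4)
      + 553033980 * (A * n4)
      + 531812174 * (c4)
      + 493129430 * (A * C * e2)
      + 366075900 * (C * nn)
      + 247810520 * (A * c2)
      + 244498356 * (e2 * c4)
      + 244397880 * (B * e0)
      + 244397880 * (e0 * e0 * e5)
      + 238364640 * (A * e5 * w2)
      + 232331400 * (A * e0)
      + 220128090 * (B * D * e0)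
      + 198637200 * (A * e0 * e2)
      + 159898445 * (D * e0 * e1)
      + 158909760 * (A * B * e2)
      + 156064910 * (e0 * e1)
      + 131993810 * (A * e2 * c3)
      + 131993810 * (C * e0 * e1)
      + 82601125 * (l * e0 * nn)
      + 63159760 * (A * B * c3)
      + 39727440 * (A * e2 * e2)
      + 33740355 * (l * e2 * nn)
      + 16991320 * (A * w0)
      + 16042360 * (B * mm)
      + 2361470 * (mm) = 0 := by
    subst de0 de5 de2 de1 dw0 dnn dmm dc2 dc3 dc4 dc5 dw2 dn4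
    ring
  have pos : 0 < 5460855180 * (A * C * C)
      + 3643567540 * (A * C * D)
      + 3524439660 * (A * c3)
      + 2959774980 * (A * l * e0)
      + 2249829990 * (B * e0 * c3)
      + 1834380900 * (e5 * n4)
      + 1809842460 * (D * n4)
      + 1785304020 * (B * B * c3)
      + 1684431690 * (e0 * w0)
      + 1369109280 * (A * D * e0)
      + 1149110265 * (D * e0 * e5)
      + 831975844 * (B * c4)
      + 659969050 * (e0 * c5)
      + 631836480 * (A * A * D)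
      + 599191080 * (C * n4)
      + 553033980 * (A * n4)
      + 531812174 * (c4)
      + 493129430 * (A * C * e2)
      + 366075900 * (C * nn)
      + 247810520 * (A * c2)
      + 244498356 * (e2 * c4)
      + 244397880 * (B * e0)
      + 244397880 * (e0 * e0 * e5)
      + 238364640 * (A * e5 * w2)
      + 232331400 * (A * e0)
      + 220128090 * (B * D * e0)
      + 198637200 * (A * e0 * e2)
      + 159898445 * (D * e0 * e1)
      + 158909760 * (A * B * e2)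
      + 156064910 * (e0 * e1)
      + 131993810 * (A * e2 * c3)
      + 131993810 * (C * e0 * e1)
      + 82601125 * (l * e0 * nn)
      + 63159760 * (A * B * c3)
      + 39727440 * (A * e2 * e2)
      + 33740355 * (l * e2 * nn)
      + 16991320 * (A * w0)
      + 16042360 * (B * mm)
      + 2361470 * (mm) := by positivity
  exact absurd key pos.ne'

theorem bw4_p (A B C D l : ℝ)
    (hA : 0 ≤ A)
    (hB : 0 < B)
    (hC : 0 < C)
    (hD : 0 < D)
    (hl : 0 < l)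
    (he0 : 0 < 1 + A - B)
    (he5 : 0 < 1 - C - D)
    (he2 : 0 < 1 + B - 5 * A)
    (he1 : 0 < 1 - 5 * C + 3 * D)
    (hw0 : 0 < B * C - A * D)
    (hnn : 0 ≤ 4 * B ^ 2 - 2 * B - 1 - 10 * A)
    (hmm : 0 ≤ 4 * D ^ 2 - 2 * D - 1 + 10 * C)
    (hc2 : 0 < l * (B ^ 2 + 2 * A) - 2 * C + D ^ 2)
    (hc3 : 0 < l * (B - A) - C - D)
    (hc4 : 0 < 1 - 2 * D + 2 * C * D - l * (2 * B + 2 * A * B - 1))
    (hc5 : 0 < 1 + C ^ 2 + D ^ 2 - l * (1 + A ^ 2 + B ^ 2))
    (hw2 : 0 ≤ 3 * A - 3 * C + B + D)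
    (hn4 : 0 ≤ 3 * B * D - 1 + 5 * A * C) : False :=
  bw4 A B C D l _ _ _ _ _ _ _ _ _ _ _ _ _
    hA hB hC hD hl he0 he5 he2 he1 hw0 hnn hmm hc2 hc3 hc4 hc5 hw2 hn4
    rfl rfl rfl rfl rfl rfl rfl rfl rfl rfl rfl rfl rfl

end Pool.Agent.Lib.MP_fe2d2a_anF5
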